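import Pool.Agent.Run7.h719.SM.Gap

/-!
# Numerical bounds of `ee`
-/

open MeasureTheory Set Filter Topology

namespace Run7.h719.SM

lemma pi_sq : 9.8696 < Real.pi ^ 2 ∧ Real.pi ^ 2 < 9.86961 := by
  have h1 := Real.pi_gt_d6
  have h2 := Real.pi_lt_d6
  constructor <;> nlinarith

lemma ee_le' {l P : ℝ} (hl : 0 < l) (hP : PP l ≤ P) : ee l ≤ 1 - 2 * l / P := by
  have h := PP_ge hl
  unfold ee
  have : 2 * l / P ≤ 2 * l / PP l := by
    apply div_le_div_of_nonneg_left (by positivity) (by linarith) hP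
  linarith

lemma ee_le {l : ℝ} (hl : 0 < l) :
    ee l ≤ (Real.log (1 + 4 * Real.pi ^ 2 * l ^ 2) + 3641 / 1000) / (4 * Real.pi ^ 2 * l ^ 2) := by
  have hpi := Real.pi_pos
  have h := PP_ge hl
  have h1 : ee l ≤ (PP l - 2 * l) / (2 * l) := by
    unfold ee
    rw [show 1 - 2 * l / PP l = (PP l - 2 * l) / PP l by
      rw [sub_div, div_self (by linarith : PP l ≠ 0)]]
    exact div_le_div_of_nonneg_left (by linarith) (by positivity) h.le
  refine h1.trans (le_of_eq ?_)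
  unfold PP
  field_simp
  ring

lemma ee_34 : ee (3 / 4) ≤ 0.2341 := by
  obtain ⟨p1, p2⟩ := pi_sq
  have hl : Real.log (1 + 4 * Real.pi ^ 2 * (3 / 4) ^ 2) ≤ 3.1452 := by
    rw [Real.log_le_iff_le_exp (by positivity)]
    have e : Real.exp 3.1452 = Real.exp 1 ^ 3 * Real.exp 0.1452 := by
      rw [← Real.exp_nat_mul, ← Real.exp_add]
      norm_num
    have h1 := Real.exp_one_gt_d9
    have h2 := Real.quadratic_le_exp_of_nonneg (x := 0.1452) (by norm_num)
    have h3 : (2.7182818283 : ℝ) ^ 3 ≤ Real.exp 1 ^ 3 := pow_le_pow_left₀ (by norm_num) h1.le 3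
    rw [e]
    have h4 : (2.7182818283 : ℝ) ^ 3 * (1 + 0.1452 + 0.1452 ^ 2 / 2) ≤
        Real.exp 1 ^ 3 * Real.exp 0.1452 := by
      apply mul_le_mul h3 h2 (by norm_num) (by positivity)
    refine le_trans ?_ h4
    norm_num
    linarith
  have hP : PP (3 / 4) ≤ 1.9584 := by
    unfold PP
    have : (Real.log (1 + 4 * Real.pi ^ 2 * (3 / 4) ^ 2) + 3641 / 1000) / (2 * Real.pi ^ 2 * (3 / 4)) ≤
        0.4584 := by
      rw [div_le_iff₀ (by positivity)]
      linarith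
    linarith
  refine (ee_le' (by norm_num) hP).trans ?_
  norm_num

lemma ee_5 : ee 5 ≤ 0.01058 := by
  obtain ⟨p1, p2⟩ := pi_sq
  have hl : Real.log (1 + 4 * Real.pi ^ 2 * 5 ^ 2) ≤ 6.905 := by
    rw [Real.log_le_iff_le_exp (by positivity)]
    have e : Real.exp 6.905 = Real.exp 1 ^ 7 * Real.exp (-0.095) := by
      rw [← Real.exp_nat_mul, ← Real.exp_add]
      norm_num
    have h1 := Real.exp_one_gt_d9
    have h2 := Real.add_one_le_exp (-0.095 : ℝ)
    have h3 : (2.7182818283 : ℝ) ^ 7 ≤ Real.exp 1 ^ 7 := pow_le_pow_left₀ (by norm_num) h1.le 7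
    rw [e]
    have h4 : (2.7182818283 : ℝ) ^ 7 * (-0.095 + 1) ≤
        Real.exp 1 ^ 7 * Real.exp (-0.095) := by
      apply mul_le_mul h3 h2 (by norm_num) (by positivity)
    refine le_trans ?_ h4
    norm_num
    linarith
  have hP : PP 5 ≤ 10.10686 := by
    unfold PP
    have : (Real.log (1 + 4 * Real.pi ^ 2 * 5 ^ 2) + 3641 / 1000) / (2 * Real.pi ^ 2 * 5) ≤
        0.10686 := by
      rw [div_le_iff₀ (by positivity)]
      linarith
    linarith
  refine (ee_le' (by norm_num) hP).trans ?_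
  norm_num

lemma log_ten : Real.log 10 ≤ 2.3105 := by
  have h1 : Real.log ((10 : ℝ) ^ 3) ≤ Real.log (2 ^ 10) :=
    Real.log_le_log (by norm_num) (by norm_num)
  rw [Real.log_pow, Real.log_pow] at h1
  have h2 := Real.log_two_lt_d9
  push_cast at h1
  linarith

lemma cost {j : ℕ} (hj : 1 ≤ j) : 66 / 5 * 10 ^ j * ee (10 ^ j) ≤
    33437 / 100000 * ((73378 / 10000 + 4621 / 1000 * j) * ((10 : ℝ) ^ j)⁻¹) := by
  obtain ⟨p1, p2⟩ := pi_sq
  obtain ⟨l, hl⟩ : ∃ l : ℝ, l = 10 ^ j := ⟨_, rfl⟩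
  have hl0 : 0 < l := by rw [hl]; positivity
  have hl10 : 10 ≤ l := by
    rw [hl]
    calc (10 : ℝ) = 10 ^ 1 := by norm_num
      _ ≤ 10 ^ j := pow_le_pow_right₀ (by norm_num) hj
  have h1 := ee_le hl0
  have h2 : Real.log (1 + 4 * Real.pi ^ 2 * l ^ 2) ≤ 3.6968 + 4.621 * j := by
    have a1 : 1 + 4 * Real.pi ^ 2 * l ^ 2 ≤ 4 * 10 * l ^ 2 := by nlinarith
    have a2 : Real.log (4 * 10 * l ^ 2) = 2 * Real.log 2 + Real.log 10 + 2 * (j * Real.log 10) := by
      rw [Real.log_mul (by norm_num) (by positivity), Real.log_mul (by norm_num) (by norm_num),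
        Real.log_pow, hl, Real.log_pow, show (4 : ℝ) = 2 ^ 2 by norm_num, Real.log_pow]
      push_cast
      ring
    have a3 := Real.log_le_log (by positivity) a1
    have a4 := Real.log_two_lt_d9
    have a5 := log_ten
    have a6 : (j : ℝ) * Real.log 10 ≤ j * 2.3105 :=
      mul_le_mul_of_nonneg_left a5 (Nat.cast_nonneg j)
    rw [a2] at a3
    linarith
  rw [← hl]
  have hj0 : (0 : ℝ) ≤ j := Nat.cast_nonneg j
  calc 66 / 5 * l * ee l ≤ 66 / 5 * l *
        ((Real.log (1 + 4 * Real.pi ^ 2 * l ^ 2) + 3641 / 1000) / (4 * Real.pi ^ 2 * l ^ 2)) := by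
        gcongr
    _ ≤ 66 / 5 * l * ((3.6968 + 4.621 * j + 3641 / 1000) / (4 * 9.8696 * l ^ 2)) := by
        gcongr
    _ ≤ _ := by
        have e : 66 / 5 * l * ((3.6968 + 4.621 * j + 3641 / 1000) / (4 * 9.8696 * l ^ 2)) =
            (66 / 5 / (4 * 9.8696)) * ((73378 / 10000 + 4621 / 1000 * j) * l⁻¹) := by
          field_simp
          ring
        rw [e]
        exact mul_le_mul_of_nonneg_right (by norm_num) (by positivity)

lemma cost_sum (J : ℕ) (hJ : 1 ≤ J) : ∑ j ∈ Finset.Icc 2 J, 66 / 5 * 10 ^ j * ee (10 ^ j) ≤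
    33437 / 100000 * (0.18995 - (1.386 + 0.5135 * J) * ((10 : ℝ) ^ J)⁻¹) := by
  induction J, hJ using Nat.le_induction with
  | base => norm_num
  | succ J hJ ih =>
    rw [Finset.sum_Icc_succ_top (by omega)]
    have h1 := cost (j := J + 1) (by omega)
    have e : ((10 : ℝ) ^ (J + 1))⁻¹ = ((10 : ℝ) ^ J)⁻¹ / 10 := by
      rw [pow_succ, mul_inv]
      ring
    rw [e] at h1 ⊢
    push_cast at h1 ⊢
    have h2 : 0 < ((10 : ℝ) ^ J)⁻¹ := by positivity
    have h3 : (0 : ℝ) ≤ J := Nat.cast_nonneg J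
    have h4 : 0 ≤ (J : ℝ) * ((10 : ℝ) ^ J)⁻¹ := by positivity
    nlinarith

lemma cost_tail (J : ℕ) (hJ : 1 ≤ J) :
    ∑ j ∈ Finset.Icc 2 J, 66 / 5 * 10 ^ j * ee (10 ^ j) ≤ 0.06352 := by
  have h := cost_sum J hJ
  have h2 : 0 ≤ (1.386 + 0.5135 * J) * ((10 : ℝ) ^ J)⁻¹ := by positivity
  linarith

end Run7.h719.SM
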