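import Mathlib

/-! Numerical certificate for the second moment of the gaps. -/

namespace Run7.h719.SM

/-- the polynomial of the certificate -/
noncomputable def PS (x : ℝ) : ℝ :=
  (131 / 250 - x) * ((45 / 8 + x ^ 2) * (250 + x ^ 2) * (100000 + x ^ 2)) +
    263 / 100 * x ^ 2 * ((250 + x ^ 2) * (100000 + x ^ 2)) +
    227 / 10 * x ^ 2 * ((45 / 8 + x ^ 2) * (100000 + x ^ 2)) +
    1100 * x ^ 2 * ((45 / 8 + x ^ 2) * (250 + x ^ 2))

lemma ps_0 (x : ℝ) (h0 : 0 ≤ x) (h1 : x ≤ 1) : 0 ≤ PS x := by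
  obtain ⟨u, hu⟩ : ∃ u, u = x - 0 := ⟨_, rfl⟩
  obtain ⟨v, hv⟩ : ∃ v, v = 1 - x := ⟨_, rfl⟩
  have hu0 : 0 ≤ u := by rw [hu]; linarith
  have hv0 : 0 ≤ v := by rw [hv]; linarith
  have e : PS x =
      73687500 * v ^ 7 +
      375187500 * u * v ^ 6 +
      (6377188895 / 8) * u ^ 2 * v ^ 5 +
      (7291433225 / 8) * u ^ 3 * v ^ 4 +
      (120357100077 / 200) * u ^ 4 * v ^ 3 +
      (22779244553 / 100) * u ^ 5 * v ^ 2 +
      (11378892221 / 250) * u ^ 6 * v +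
      (3728081489 / 1000) * u ^ 7 := by
    rw [hu, hv]
    unfold PS
    ring
  rw [e]
  positivity

lemma ps_1 (x : ℝ) (h0 : 1 ≤ x) (h1 : x ≤ (3 / 2)) : 0 ≤ PS x := by
  obtain ⟨u, hu⟩ : ∃ u, u = x - 1 := ⟨_, rfl⟩
  obtain ⟨v, hv⟩ : ∃ v, v = (3 / 2) - x := ⟨_, rfl⟩
  have hu0 : 0 ≤ u := by rw [hu]; linarith
  have hv0 : 0 ≤ v := by rw [hv]; linarith
  have e : PS x =
      (59649303824 / 125) * v ^ 7 +
      (52438627816 / 25) * u * v ^ 6 +
      (452478428156 / 125) * u ^ 2 * v ^ 5 +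
      (77414556132 / 25) * u ^ 3 * v ^ 4 +
      (36405414032 / 25) * u ^ 4 * v ^ 3 +
      (136240682867 / 250) * u ^ 5 * v ^ 2 +
      (12668976669 / 50) * u ^ 6 * v +
      (8440982514 / 125) * u ^ 7 := by
    rw [hu, hv]
    unfold PS
    ring
  rw [e]
  positivity

lemma ps_2 (x : ℝ) (h0 : (3 / 2) ≤ x) (h1 : x ≤ 2) : 0 ≤ PS x := by
  obtain ⟨u, hu⟩ : ∃ u, u = x - (3 / 2) := ⟨_, rfl⟩
  obtain ⟨v, hv⟩ : ∃ v, v = 2 - x := ⟨_, rfl⟩
  have hu0 : 0 ≤ u := by rw [hu]; linarith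
  have hv0 : 0 ≤ v := by rw [hv]; linarith
  have e : PS x =
      (8440982514 / 125) * v ^ 7 +
      (173002627047 / 250) * u * v ^ 6 +
      (794187145079 / 250) * u ^ 2 * v ^ 5 +
      (192460989549 / 25) * u ^ 3 * v ^ 4 +
      (263005883392 / 25) * u ^ 4 * v ^ 3 +
      (1021890134652 / 125) * u ^ 5 * v ^ 2 +
      (422365229088 / 125) * u ^ 6 * v +
      (72232805056 / 125) * u ^ 7 := by
    rw [hu, hv]
    unfold PS
    ring
  rw [e]
  positivity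

lemma ps_3 (x : ℝ) (h0 : 2 ≤ x) (h1 : x ≤ 5) : 0 ≤ PS x := by
  obtain ⟨u, hu⟩ : ∃ u, u = x - 2 := ⟨_, rfl⟩
  obtain ⟨v, hv⟩ : ∃ v, v = 5 - x := ⟨_, rfl⟩
  have hu0 : 0 ≤ u := by rw [hu]; linarith
  have hv0 : 0 ≤ v := by rw [hv]; linarith
  have e : PS x =
      (1128637579 / 546750) * v ^ 7 +
      (7853250572 / 273375) * u * v ^ 6 +
      (19498181333 / 145800) * u ^ 2 * v ^ 5 +
      (100742250217 / 437400) * u ^ 3 * v ^ 4 +
      (13805543459 / 87480) * u ^ 4 * v ^ 3 +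
      (92255203 / 2916) * u ^ 5 * v ^ 2 +
      (6452665 / 8748) * u ^ 6 * v +
      (64065425 / 17496) * u ^ 7 := by
    rw [hu, hv]
    unfold PS
    ring
  rw [e]
  positivity

lemma ps_4 (x : ℝ) (h0 : 5 ≤ x) (h1 : x ≤ 10) : 0 ≤ PS x := by
  obtain ⟨u, hu⟩ : ∃ u, u = x - 5 := ⟨_, rfl⟩
  obtain ⟨v, hv⟩ : ∃ v, v = 10 - x := ⟨_, rfl⟩
  have hu0 : 0 ≤ u := by rw [hu]; linarith
  have hv0 : 0 ≤ v := by rw [hv]; linarith
  have e : PS x =
      (2562617 / 25000) * v ^ 7 +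
      (23487581 / 12500) * u * v ^ 6 +
      (215210961 / 12500) * u ^ 2 * v ^ 5 +
      (1917776983 / 25000) * u ^ 3 * v ^ 4 +
      (4372487609 / 25000) * u ^ 4 * v ^ 3 +
      (5197202671 / 25000) * u ^ 5 * v ^ 2 +
      (76632694 / 625) * u ^ 6 * v +
      (177200023 / 6250) * u ^ 7 := by
    rw [hu, hv]
    unfold PS
    ring
  rw [e]
  positivity

lemma ps_5 (x : ℝ) (h0 : 10 ≤ x) (h1 : x ≤ 40) : 0 ≤ PS x := by
  obtain ⟨u, hu⟩ : ∃ u, u = x - 10 := ⟨_, rfl⟩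
  obtain ⟨v, hv⟩ : ∃ v, v = 40 - x := ⟨_, rfl⟩
  have hu0 : 0 ≤ u := by rw [hu]; linarith
  have hv0 : 0 ≤ v := by rw [hv]; linarith
  have e : PS x =
      (177200023 / 1749600000) * v ^ 7 +
      (4084839487 / 1749600000) * u * v ^ 6 +
      (5999876471 / 291600000) * u ^ 2 * v ^ 5 +
      (74394490597 / 874800000) * u ^ 3 * v ^ 4 +
      (278809339199 / 1749600000) * u ^ 4 * v ^ 3 +
      (59491867477 / 583200000) * u ^ 5 * v ^ 2 +
      (1283053747 / 109350000) * u ^ 6 * v +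
      (301954361 / 218700000) * u ^ 7 := by
    rw [hu, hv]
    unfold PS
    ring
  rw [e]
  positivity

lemma ps_6 (x : ℝ) (h0 : 40 ≤ x) (h1 : x ≤ 50) : 0 ≤ PS x := by
  obtain ⟨u, hu⟩ : ∃ u, u = x - 40 := ⟨_, rfl⟩
  obtain ⟨v, hv⟩ : ∃ v, v = 50 - x := ⟨_, rfl⟩
  have hu0 : 0 ≤ u := by rw [hu]; linarith
  have hv0 : 0 ≤ v := by rw [hv]; linarith
  have e : PS x =
      (301954361 / 100000) * v ^ 7 +
      (981435769 / 50000) * u * v ^ 6 +
      (55270698439 / 800000) * u ^ 2 * v ^ 5 +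
      (139807350743 / 800000) * u ^ 3 * v ^ 4 +
      (24211214569 / 80000) * u ^ 4 * v ^ 3 +
      (25647385977 / 80000) * u ^ 5 * v ^ 2 +
      (5874530047 / 32000) * u ^ 6 * v +
      (277413979 / 6400) * u ^ 7 := by
    rw [hu, hv]
    unfold PS
    ring
  rw [e]
  positivity

lemma ps_7 (x : ℝ) (h0 : 50 ≤ x) (h1 : x ≤ 100) : 0 ≤ PS x := by
  obtain ⟨u, hu⟩ : ∃ u, u = x - 50 := ⟨_, rfl⟩
  obtain ⟨v, hv⟩ : ∃ v, v = 100 - x := ⟨_, rfl⟩
  have hu0 : 0 ≤ u := by rw [hu]; linarith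
  have hv0 : 0 ≤ v := by rw [hv]; linarith
  have e : PS x =
      (277413979 / 500000000) * v ^ 7 +
      (5776857071 / 500000000) * u * v ^ 6 +
      (24768329193 / 250000000) * u ^ 2 * v ^ 5 +
      (22173446879 / 50000000) * u ^ 3 * v ^ 4 +
      (111998288999 / 100000000) * u ^ 4 * v ^ 3 +
      (801107058599 / 500000000) * u ^ 5 * v ^ 2 +
      (2351453711 / 1953125) * u ^ 6 * v +
      (45664820729 / 125000000) * u ^ 7 := by
    rw [hu, hv]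
    unfold PS
    ring
  rw [e]
  positivity

theorem ps_nonneg {x : ℝ} (h0 : 0 ≤ x) (h1 : x ≤ 100) : 0 ≤ PS x := by
  rcases le_total x 1 with h2 | h2
  · exact ps_0 x (by linarith) (by linarith)
  rcases le_total x (3 / 2) with h3 | h3
  · exact ps_1 x (by linarith) (by linarith)
  rcases le_total x 2 with h4 | h4
  · exact ps_2 x (by linarith) (by linarith)
  rcases le_total x 5 with h5 | h5
  · exact ps_3 x (by linarith) (by linarith)
  rcases le_total x 10 with h6 | h6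
  · exact ps_4 x (by linarith) (by linarith)
  rcases le_total x 40 with h7 | h7
  · exact ps_5 x (by linarith) (by linarith)
  rcases le_total x 50 with h8 | h8
  · exact ps_6 x (by linarith) (by linarith)
  exact ps_7 x (by linarith) (by linarith)

end Run7.h719.SM
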