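import Pool.Agent.Run7.h719.SM.Gap
import Pool.Agent.Run7.h719.SM.Cert

/-!
# The function of a gap from below
-/

open MeasureTheory Set Filter Topology

namespace Run7.h719.SM

lemma nonneg_of_deriv {f f' : ℝ → ℝ} (hf : ∀ x, HasDerivAt f (f' x) x) (h0 : f 0 = 0)
    (h : ∀ x, 0 ≤ x → 0 ≤ f' x) {x : ℝ} (hx : 0 ≤ x) : 0 ≤ f x := by
  have hm : MonotoneOn f (Ici 0) := by
    apply monotoneOn_of_deriv_nonneg (convex_Ici 0)
    · exact fun y _ => (hf y).continuousAt.continuousWithinAt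
    · exact fun y _ => (hf y).differentiableAt.differentiableWithinAt
    · intro y hy
      rw [interior_Ici] at hy
      rw [(hf y).deriv]
      exact h y (le_of_lt hy)
  have := hm (mem_Ici.2 le_rfl) (mem_Ici.2 hx) hx
  rwa [h0] at this

lemma hd_exp_neg (x : ℝ) : HasDerivAt (fun x => Real.exp (-x)) (-Real.exp (-x)) x := by
  have h := (hasDerivAt_neg x).exp
  exact h.congr_deriv (by ring)

lemma hd_cub (a b c d y : ℝ) : HasDerivAt (fun x : ℝ => a + b * x + c * x ^ 2 + d * x ^ 3)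
    (b + 2 * c * y + 3 * d * y ^ 2) y := by
  have h : HasDerivAt (fun x : ℝ => a + b * x + c * x ^ 2 + d * x ^ 3)
      (b * 1 + c * ((2 : ℕ) * y ^ (2 - 1)) + d * ((3 : ℕ) * y ^ (3 - 1))) y :=
    ((((hasDerivAt_id' y).const_mul b).const_add a).add ((hasDerivAt_pow 2 y).const_mul c)).add
      ((hasDerivAt_pow 3 y).const_mul d)
  refine h.congr_deriv ?_
  norm_num
  ring

lemma hd_ec (a b c d e f g h y : ℝ) : HasDerivAt
    (fun x : ℝ => Real.exp (-x) * (a + b * x + c * x ^ 2 + d * x ^ 3) +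
      (e + f * x + g * x ^ 2 + h * x ^ 3))
    (Real.exp (-y) * ((b - a) + (2 * c - b) * y + (3 * d - c) * y ^ 2 + (-d) * y ^ 3) +
      (f + 2 * g * y + 3 * h * y ^ 2)) y := by
  have h0 : HasDerivAt (fun x : ℝ => Real.exp (-x) * (a + b * x + c * x ^ 2 + d * x ^ 3) +
      (e + f * x + g * x ^ 2 + h * x ^ 3)) _ y :=
    ((hd_exp_neg y).mul (hd_cub a b c d y)).add (hd_cub e f g h y)
  refine h0.congr_deriv ?_
  ring

/-- the Padé bound of `exp` -/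
lemma pade {t : ℝ} (ht : 0 ≤ t) : 120 - 60 * t + 12 * t ^ 2 - t ^ 3 ≤
    Real.exp (-t) * (120 + 60 * t + 12 * t ^ 2 + t ^ 3) := by
  have d4 : ∀ x : ℝ, 0 ≤ x →
      0 ≤ Real.exp (-x) * (-6 + (-6) * x + (-3) * x ^ 2 + (-1) * x ^ 3) +
        (6 + 0 * x + 0 * x ^ 2 + 0 * x ^ 3) := by
    intro x hx
    refine nonneg_of_deriv (fun y => hd_ec (-6) (-6) (-3) (-1) 6 0 0 0 y) (by simp) ?_ hx
    intro y hy
    have hE := Real.exp_pos (-y)
    have : 0 ≤ Real.exp (-y) * y ^ 3 := by positivity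
    linarith
  have d3 : ∀ x : ℝ, 0 ≤ x →
      0 ≤ Real.exp (-x) * (24 + 18 * x + 6 * x ^ 2 + 1 * x ^ 3) +
        (-24 + 6 * x + 0 * x ^ 2 + 0 * x ^ 3) := by
    intro x hx
    refine nonneg_of_deriv (fun y => hd_ec 24 18 6 1 (-24) 6 0 0 y) (by simp) ?_ hx
    intro y hy
    have := d4 y hy
    linarith
  have d2 : ∀ x : ℝ, 0 ≤ x →
      0 ≤ Real.exp (-x) * (-60 + (-36) * x + (-9) * x ^ 2 + (-1) * x ^ 3) +
        (60 + (-24) * x + 3 * x ^ 2 + 0 * x ^ 3) := by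
    intro x hx
    refine nonneg_of_deriv (fun y => hd_ec (-60) (-36) (-9) (-1) 60 (-24) 3 0 y) (by simp) ?_ hx
    intro y hy
    have := d3 y hy
    linarith
  have d1 : 0 ≤ Real.exp (-t) * (120 + 60 * t + 12 * t ^ 2 + 1 * t ^ 3) +
      (-120 + 60 * t + (-12) * t ^ 2 + 1 * t ^ 3) := by
    refine nonneg_of_deriv (fun y => hd_ec 120 60 12 1 (-120) 60 (-12) 1 y) (by simp) ?_ ht
    intro y hy
    have := d2 y hy
    linarith
  linarith

/-- the rational minorant -/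
noncomputable def QQ (l d : ℝ) : ℝ := 5 * d ^ 3 / (60 * l ^ 2 + 6 * d ^ 2)

lemma QQ_nonneg {l d : ℝ} (hd : 0 ≤ d) : 0 ≤ QQ l d := by
  unfold QQ
  positivity

lemma QQ_mono {l x y : ℝ} (hl : 0 < l) (hx : 0 ≤ x) (hxy : x ≤ y) : QQ l x ≤ QQ l y := by
  have hy : 0 ≤ y := hx.trans hxy
  unfold QQ
  rw [div_le_div_iff₀ (by positivity) (by positivity)]
  have h1 : x ^ 3 ≤ y ^ 3 := pow_le_pow_left₀ hx hxy 3
  have h2 : 0 ≤ 60 * l ^ 2 * (y ^ 3 - x ^ 3) := mul_nonneg (by positivity) (by linarith)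
  have h3 : 0 ≤ 6 * x ^ 2 * y ^ 2 * (y - x) := mul_nonneg (by positivity) (by linarith)
  nlinarith

lemma QQ_le {l d : ℝ} (hl : 0 < l) (hd : 0 ≤ d) : QQ l d ≤ GG l d := by
  obtain ⟨t, ht⟩ : ∃ t : ℝ, t = d / l := ⟨_, rfl⟩
  have ht0 : 0 ≤ t := by rw [ht]; positivity
  have hdt : d = l * t := by rw [ht]; field_simp
  have hp := pade ht0
  have hE := Real.exp_pos (-t)
  have e1 : QQ l d = l * (5 * t ^ 3 / (60 + 6 * t ^ 2)) := by
    unfold QQ
    rw [hdt]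
    field_simp
  have e2 : GG l d = l * (t - 2 * th t) := by
    unfold GG
    rw [← ht, hdt]
    ring
  rw [e1, e2]
  apply mul_le_mul_of_nonneg_left _ hl.le
  have h1 : th t ≤ (60 * t + t ^ 3) / (120 + 12 * t ^ 2) := by
    unfold th
    rw [div_le_div_iff₀ (by positivity) (by positivity)]
    nlinarith
  have e3 : t - 5 * t ^ 3 / (60 + 6 * t ^ 2) = 2 * ((60 * t + t ^ 3) / (120 + 12 * t ^ 2)) := by
    field_simp
    ring
  linarith

lemma GG_nonneg {l d : ℝ} (hl : 0 < l) (hd : 0 ≤ d) : 0 ≤ GG l d :=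
  (QQ_nonneg hd).trans (QQ_le hl hd)

/-- the coefficients of the certificate -/
lemma sq_small {x : ℝ} (h0 : 0 ≤ x) (h1 : x ≤ 100) : x ^ 2 ≤ 131 / 250 * x +
    789 / 250 * QQ (3 / 4) x + 681 / 25 * QQ 5 x + 1320 * QQ 100 x := by
  have h := ps_nonneg h0 h1
  have e : 131 / 250 * x + 789 / 250 * QQ (3 / 4) x + 681 / 25 * QQ 5 x + 1320 * QQ 100 x - x ^ 2 =
      x * PS x / ((45 / 8 + x ^ 2) * (250 + x ^ 2) * (100000 + x ^ 2)) := by
    unfold QQ PS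
    field_simp
    ring
  have h2 : 0 ≤ x * PS x / ((45 / 8 + x ^ 2) * (250 + x ^ 2) * (100000 + x ^ 2)) := by positivity
  linarith

lemma sq_large {x : ℝ} {j : ℕ} (h0 : (10 : ℝ) ^ j ≤ x) (h1 : x ≤ 10 ^ (j + 1)) :
    x ^ 2 ≤ 66 / 5 * 10 ^ j * QQ (10 ^ j) x := by
  obtain ⟨l, hl⟩ : ∃ l : ℝ, l = 10 ^ j := ⟨_, rfl⟩
  have hl0 : 0 < l := by rw [hl]; positivity
  rw [pow_succ] at h1
  rw [← hl] at h0 h1 ⊢
  have hx : 0 < x := by linarith
  have h2 : 0 ≤ (x - l) * (l * 10 - x) := mul_nonneg (by linarith) (by linarith)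
  unfold QQ
  rw [mul_div_assoc', le_div_iff₀ (by positivity)]
  have h3 : 0 ≤ 6 * x ^ 2 * ((x - l) * (l * 10 - x)) := by positivity
  nlinarith

end Run7.h719.SM
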