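import Mathlib

/-!
# The exponential kernel and the gaps of a finite configuration on the line
-/

open Finset

namespace Run7.h719.SM

/-- `tanh (d / 2)` -/
noncomputable def th (d : ℝ) : ℝ := (1 - Real.exp (-d)) / (1 + Real.exp (-d))

/-- sum of the exponential kernel over all pairs -/
noncomputable def WE (y : ℕ → ℝ) (N : ℕ) : ℝ :=
  ∑ j ∈ range (N + 1), ∑ k ∈ range (N + 1), Real.exp (-|y j - y k|)

/-- sum of the exponential kernel over the points below the last one -/
noncomputable def YE (y : ℕ → ℝ) (N : ℕ) : ℝ := ∑ k ∈ range (N + 1), Real.exp (-(y N - y k))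

lemma YE_succ (y : ℕ → ℝ) (N : ℕ) :
    YE y (N + 1) = Real.exp (-(y (N + 1) - y N)) * YE y N + 1 := by
  unfold YE
  rw [sum_range_succ, sub_self, neg_zero, Real.exp_zero, mul_sum]
  congr 1
  refine sum_congr rfl fun k _ => ?_
  rw [← Real.exp_add]
  congr 1
  ring

lemma WE_succ {y : ℕ → ℝ} (hy : Monotone y) (N : ℕ) :
    WE y (N + 1) = WE y N + 2 * (Real.exp (-(y (N + 1) - y N)) * YE y N) + 1 := by
  have h1 : ∑ k ∈ range (N + 1), Real.exp (-|y k - y (N + 1)|) =
      Real.exp (-(y (N + 1) - y N)) * YE y N := by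
    unfold YE
    rw [mul_sum]
    refine sum_congr rfl fun k hk => ?_
    have h2 : y k ≤ y (N + 1) := hy (mem_range.1 hk).le
    rw [abs_of_nonpos (by linarith), ← Real.exp_add]
    congr 1
    ring
  have h2 : ∑ k ∈ range (N + 1), Real.exp (-|y (N + 1) - y k|) =
      Real.exp (-(y (N + 1) - y N)) * YE y N := by
    rw [← h1]
    refine sum_congr rfl fun k _ => ?_
    rw [abs_sub_comm]
  unfold WE
  rw [sum_range_succ _ (N + 1)]
  rw [sum_congr rfl fun j _ => sum_range_succ (fun k => Real.exp (-|y j - y k|)) (N + 1)]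
  rw [sum_add_distrib, h1, sum_range_succ (fun k => Real.exp (-|y (N + 1) - y k|)) (N + 1), h2,
    sub_self, abs_zero, neg_zero, Real.exp_zero]
  ring

/-- the energy inequality -/
theorem energy {y : ℕ → ℝ} (hy : Monotone y) (s : ℝ) (N : ℕ) :
    4 * (N + 1) * s - 4 * s ^ 2 * (1 + ∑ n ∈ range N, th (y (n + 1) - y n)) +
      (YE y N - 2 * s) ^ 2 ≤ WE y N := by
  induction N with
  | zero =>
    unfold WE YE
    simp
    nlinarith
  | succ N ih =>
    rw [WE_succ hy, YE_succ, sum_range_succ]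
    obtain ⟨e, he⟩ : ∃ e : ℝ, e = Real.exp (-(y (N + 1) - y N)) := ⟨_, rfl⟩
    have he0 : 0 < e := by rw [he]; exact Real.exp_pos _
    have he1 : e ≤ 1 := by
      rw [he]
      apply Real.exp_le_one_iff.2
      have := hy (Nat.le_succ N)
      simp only [Nat.succ_eq_add_one] at this
      linarith
    have ht : th (y (N + 1) - y N) = (1 - e) / (1 + e) := by unfold th; rw [← he]
    rw [ht, ← he]
    obtain ⟨Y, hY⟩ : ∃ Y : ℝ, Y = YE y N := ⟨_, rfl⟩
    rw [← hY] at ih ⊢
    obtain ⟨S, hS⟩ : ∃ S : ℝ, S = ∑ n ∈ range N, th (y (n + 1) - y n) := ⟨_, rfl⟩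
    rw [← hS] at ih ⊢
    have key : 0 ≤ (1 - e) * (1 + e) * (Y - 2 * s / (1 + e)) ^ 2 :=
      mul_nonneg (mul_nonneg (by linarith) (by linarith)) (sq_nonneg _)
    have e1 : (1 - e) * (1 + e) * (Y - 2 * s / (1 + e)) ^ 2 =
        Y ^ 2 * (1 - e ^ 2) - 4 * s * Y * (1 - e) + 4 * s ^ 2 * ((1 - e) / (1 + e)) := by
      field_simp
      ring
    rw [e1] at key
    push_cast
    nlinarith

end Run7.h719.SM
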