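import Pool.Agent.Run7.h719.SM.Pair
import Pool.Agent.Run7.h719.SM.Ker
import Pool.Agent.Y747.Avg

/-!
# The gaps below `T`
-/

open MeasureTheory Set Filter Topology

namespace Run7.h719.SM

open SG (ord NZ zmult ZS)
open W200.HW (Ix mem_Ix)
open Pool.Agent.Y749.Rig (ZZ mm mm_nonneg mem_ZZ nT nT_pos RR Mp Mp_integral Fr)

lemma sum_le (RH : RiemannHypothesis) {g : ℝ → ℝ} (g0 : ∀ x, 0 ≤ g x) (T : ℝ) :
    ∑ n ∈ Ix T, g (ord n) ≤ ∑ s ∈ ZZ T, mm s * g s.im := by
  classical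
  have hmap : ∀ n ∈ Ix T, (1 / 2 + Complex.I * ord n : ℂ) ∈ ZZ T := by
    intro n hn
    obtain ⟨a1, a2, a3, a4, a5⟩ := W200.HW.zero_at RH hn
    rw [mem_ZZ]
    exact ⟨a1, a2, a3, a4.le, a5⟩
  rw [← Finset.sum_fiberwise_of_maps_to hmap]
  refine Finset.sum_le_sum fun s _ => ?_
  by_cases hs : s ∈ ZS T
  · have hsub : (Ix T).filter (fun n => (1 / 2 + Complex.I * ord n : ℂ) = s) ⊆
        (Ix T).filter (fun n => ord n = s.im) := by
      intro n hn
      rw [Finset.mem_filter] at hn ⊢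
      refine ⟨hn.1, ?_⟩
      rw [← hn.2]
      simp
    calc ∑ n ∈ (Ix T).filter (fun n => (1 / 2 + Complex.I * ord n : ℂ) = s), g (ord n) ≤
        ∑ n ∈ (Ix T).filter (fun n => ord n = s.im), g (ord n) :=
          Finset.sum_le_sum_of_subset_of_nonneg hsub fun n _ _ => g0 _
      _ = ∑ n ∈ (Ix T).filter (fun n => ord n = s.im), g s.im :=
          Finset.sum_congr rfl fun n hn => by rw [(Finset.mem_filter.1 hn).2]
      _ = mm s * g s.im := by
          rw [Finset.sum_const, W200.HW.ord_fib RH hs, nsmul_eq_mul]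
          rfl
  · have : (Ix T).filter (fun n => (1 / 2 + Complex.I * ord n : ℂ) = s) = ∅ := by
      rw [Finset.filter_eq_empty_iff]
      intro n hn h
      exact hs (h ▸ W200.HW.zero_at RH hn)
    rw [this, Finset.sum_empty]
    exact mul_nonneg (mm_nonneg _) (g0 _)

lemma pairs_le (RH : RiemannHypothesis) {f : ℝ → ℝ} (f0 : ∀ x, 0 ≤ f x) (T : ℝ) :
    ∑ n ∈ Ix T, ∑ m ∈ Ix T, f (ord n - ord m) ≤
      ∑ s ∈ ZZ T, ∑ s' ∈ ZZ T, mm s * mm s' * f (s.im - s'.im) := by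
  have h1 : ∑ n ∈ Ix T, ∑ m ∈ Ix T, f (ord n - ord m) ≤
      ∑ s ∈ ZZ T, mm s * ∑ m ∈ Ix T, f (s.im - ord m) :=
    sum_le RH (g := fun x => ∑ m ∈ Ix T, f (x - ord m))
      (fun x => Finset.sum_nonneg fun m _ => f0 _) T
  refine h1.trans (Finset.sum_le_sum fun s _ => ?_)
  have h2 := sum_le RH (g := fun x => f (s.im - x)) (fun x => f0 _) T
  have h3 := mul_le_mul_of_nonneg_left h2 (mm_nonneg s)
  refine h3.trans (le_of_eq ?_)
  rw [Finset.mul_sum]
  exact Finset.sum_congr rfl fun s' _ => by ring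

lemma sum_Icc_range (f : ℕ → ℝ) (n : ℕ) :
    ∑ i ∈ Finset.Icc 1 n, f i = ∑ i ∈ Finset.range n, f (i + 1) := by
  induction n with
  | zero => simp
  | succ n ih => rw [Finset.sum_Icc_succ_top (by omega), ih, Finset.sum_range_succ]

/-- the scaled ordinates -/
noncomputable def yy (T l : ℝ) (n : ℕ) : ℝ := ord (n + 1) * Real.log T / (2 * Real.pi * l)

lemma yy_mono {T l : ℝ} (hT : 10 ≤ T) (hl : 0 < l) : Monotone (yy T l) := by
  intro n m hnm
  have hpi := Real.pi_pos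
  have hL : 0 < Real.log T := Real.log_pos (by linarith)
  unfold yy
  have := SG.ord_mono (show 1 ≤ n + 1 by omega) (show n + 1 ≤ m + 1 by omega)
  gcongr

lemma WE_eq {T l : ℝ} (hl : 0 < l) {N : ℕ} (hN : NZ T = N + 1) :
    WE (yy T l) N = ∑ n ∈ Ix T, ∑ m ∈ Ix T,
      ph l ((ord n - ord m) * Real.log T / (2 * Real.pi)) := by
  have hpi := Real.pi_pos
  unfold WE W200.HW.Ix
  rw [hN, sum_Icc_range]
  refine Finset.sum_congr rfl fun j _ => ?_
  rw [sum_Icc_range]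
  refine Finset.sum_congr rfl fun k _ => ?_
  unfold ph yy
  have e1 : |(ord (j + 1) - ord (k + 1)) * Real.log T / (2 * Real.pi)| / l =
      |(ord (j + 1) - ord (k + 1)) * Real.log T / (2 * Real.pi) / l| := by
    rw [abs_div _ l, abs_of_pos hl]
  rw [neg_div, e1]
  congr 3
  field_simp

theorem WE_up (RH : RiemannHypothesis) {T l : ℝ} (hT : 10 ≤ T) (hl : 0 < l) {N : ℕ}
    (hN : NZ T = N + 1) : WE (yy T l) N ≤ nT T * ∫ x, ph l x ∂(Mp T) := by
  have hn := nT_pos hT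
  rw [WE_eq hl hN, Mp_integral hT]
  have h1 := pairs_le RH (f := fun x => ph l (x * Real.log T / (2 * Real.pi)))
    (fun x => (ph_pos l _).le) T
  refine h1.trans (le_of_eq ?_)
  unfold RR
  rw [mul_div_cancel₀ _ hn.ne']

/-- the gaps scaled with `log T` -/
noncomputable def dT (T : ℝ) (n : ℕ) : ℝ := (ord (n + 1) - ord n) * Real.log T / (2 * Real.pi)

/-- the function of a gap -/
noncomputable def GG (l d : ℝ) : ℝ := d - 2 * l * th (d / l)

/-- the bound of its mean -/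
noncomputable def ee (l : ℝ) : ℝ := 1 - 2 * l / PP l

lemma PP_ge {l : ℝ} (hl : 0 < l) : 2 * l < PP l := by
  unfold PP
  have hpi := Real.pi_pos
  have h1 : 0 ≤ Real.log (1 + 4 * Real.pi ^ 2 * l ^ 2) := Real.log_nonneg (by
    have : 0 ≤ 4 * Real.pi ^ 2 * l ^ 2 := by positivity
    linarith)
  have : 0 < (Real.log (1 + 4 * Real.pi ^ 2 * l ^ 2) + 3641 / 1000) / (2 * Real.pi ^ 2 * l) := by
    positivity
  linarith

theorem gap_sum (RH : RiemannHypothesis)
    (hB : ∀ ε : ℝ, 0 < ε → ∀ᶠ T in atTop, ∀ α ∈ Icc (1 : ℝ) (3 / 2), 3 / 2 - α - ε ≤ Fr T α)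
    {l : ℝ} (hl : 0 < l) {ε : ℝ} (hε : 0 < ε) :
    ∀ᶠ T in atTop, ∑ n ∈ Finset.Icc 1 (NZ T - 1), GG l (dT T n) ≤ (ee l + ε) * nT T := by
  have hpi := Real.pi_pos
  obtain ⟨T0, hT0⟩ := W200.HW.NZ_lower (ε / 4) (by positivity)
  have hnT : Tendsto nT atTop atTop := by
    have h1 : Tendsto (fun T : ℝ => T * Real.log T) atTop atTop :=
      tendsto_id.atTop_mul_atTop₀ Real.tendsto_log_atTop
    exact h1.atTop_div_const (by positivity)
  filter_upwards [pair_up RH hB hl, eventually_ge_atTop T0, eventually_ge_atTop 10,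
    hnT.eventually_ge_atTop (4 * l / ε), (SG.ord_tendsto.eventually_ge_atTop 0).exists.elim
      fun _ _ => eventually_ge_atTop (max 1 (ord 1))] with T h1 h2 h3 h4 h5
  have hn := nT_pos h3
  have hL : 0 < Real.log T := Real.log_pos (by linarith)
  have h6 := hT0 T h2
  have hN1 : 1 ≤ NZ T := (SG.ord_le_iff le_rfl T).1 ((le_max_right _ _).trans h5)
  obtain ⟨N, hN⟩ : ∃ N : ℕ, NZ T = N + 1 := ⟨NZ T - 1, by omega⟩
  have hP := PP_ge hl
  obtain ⟨P, hPd⟩ : ∃ P : ℝ, P = PP l := ⟨_, rfl⟩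
  have hW := WE_up RH h3 hl hN
  have hW2 : WE (yy T l) N ≤ nT T * P := by
    rw [hPd]
    exact hW.trans (mul_le_mul_of_nonneg_left h1 hn.le)
  have hE := energy (yy_mono h3 hl) (P / 2) N
  have hsq := sq_nonneg (YE (yy T l) N - 2 * (P / 2))
  rw [← hPd] at hP
  have hP0 : 0 < P := by linarith
  obtain ⟨S, hS⟩ : ∃ S : ℝ, S = ∑ n ∈ Finset.range N, th (yy T l (n + 1) - yy T l n) := ⟨_, rfl⟩
  rw [← hS] at hE
  have e1 : ∑ n ∈ Finset.Icc 1 (NZ T - 1), GG l (dT T n) =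
      ∑ n ∈ Finset.Icc 1 N, dT T n - 2 * l * S := by
    rw [hN, Nat.add_sub_cancel, hS, Finset.mul_sum, sum_Icc_range, sum_Icc_range,
      ← Finset.sum_sub_distrib]
    refine Finset.sum_congr rfl fun n _ => ?_
    unfold GG
    congr 3
    unfold dT yy
    field_simp
  have e2 : ∑ n ∈ Finset.Icc 1 N, dT T n ≤ nT T := by
    have htel : ∀ M : ℕ, ∑ n ∈ Finset.Icc 1 M, dT T n =
        (ord (M + 1) - ord 1) * Real.log T / (2 * Real.pi) := by
      intro M
      induction M with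
      | zero => simp
      | succ M ih =>
        rw [Finset.sum_Icc_succ_top (by omega), ih]
        unfold dT
        ring
    rw [htel]
    unfold Pool.Agent.Y749.Rig.nT
    have h7 : ord (N + 1) ≤ T := (SG.ord_le_iff (by omega) T).2 (by omega)
    have h8 := SG.ord_pos (n := 1) le_rfl
    gcongr
    linarith
  rw [e1]
  -- the lower bound for `S`
  have hNr : (NZ T : ℝ) = N + 1 := by rw [hN]; push_cast; ring
  have h6' : (1 - ε / 4) * nT T ≤ N + 1 := by
    rw [← hNr]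
    refine le_trans (le_of_eq ?_) h6
    unfold Pool.Agent.Y749.Rig.nT
    ring
  have h9 : 2 * (N + 1) * P - P ^ 2 * (1 + S) ≤ nT T * P := by nlinarith
  have h10 : 2 * (N + 1) - nT T ≤ P * (1 + S) := by
    by_contra hcon
    push Not at hcon
    nlinarith
  have h11 : (1 - ε / 2) * nT T ≤ P * (1 + S) := by linarith
  have h12 : (1 - ε / 2) * nT T / P ≤ 1 + S := by
    rw [div_le_iff₀ hP0]
    linarith
  have h13 : 2 * l * ((1 - ε / 2) * nT T / P) ≤ 2 * l * (1 + S) :=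
    mul_le_mul_of_nonneg_left h12 (by positivity)
  have h14 : 2 * l * ((1 - ε / 2) * nT T / P) = (2 * l / P) * nT T - ε / 2 * (2 * l / P * nT T) := by
    field_simp
  have h15 : 2 * l / P ≤ 1 := by
    rw [div_le_one hP0]
    exact hP.le
  have h16 : ε / 2 * (2 * l / P * nT T) ≤ ε / 2 * nT T := by
    apply mul_le_mul_of_nonneg_left _ (by positivity)
    calc 2 * l / P * nT T ≤ 1 * nT T := by gcongr
      _ = _ := one_mul _
  have h17 : 2 * l ≤ ε / 2 * nT T := by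
    rw [div_le_iff₀ hε] at h4
    linarith
  unfold ee
  rw [← hPd]
  nlinarith

end Run7.h719.SM
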