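import Pool.Agent.Run7.h719.PC.Zeta
import Pool.Agent.Run7.h719.NV.Asm

/-!
# The Lorentz weight and the exponential kernel
-/

open MeasureTheory Set Filter Topology
open scoped FourierTransform

namespace Run7.h719.SM

open Pool.Agent.Y749.Rig

/-- the exponential kernel -/
noncomputable def ph (l x : ℝ) : ℝ := Real.exp (-|x| / l)

/-- the Lorentz weight -/
noncomputable def lor (l α : ℝ) : ℝ := 2 * l / (1 + (2 * Real.pi * l * α) ^ 2)

lemma ph_cont (l : ℝ) : Continuous (ph l) := by unfold ph; fun_prop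

lemma ph_even (l x : ℝ) : ph l (-x) = ph l x := by unfold ph; rw [abs_neg]

lemma ph_pos (l x : ℝ) : 0 < ph l x := Real.exp_pos _

lemma lor_even (l x : ℝ) : lor l (-x) = lor l x := by
  unfold lor
  congr 2
  ring

lemma lor_den (l x : ℝ) : 0 < 1 + (2 * Real.pi * l * x) ^ 2 := by positivity

lemma lor_cont (l : ℝ) : Continuous (lor l) := by
  unfold lor
  exact continuous_const.div (by fun_prop) fun x => (lor_den l x).ne'

lemma lor_nonneg {l : ℝ} (hl : 0 < l) (x : ℝ) : 0 ≤ lor l x := by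
  unfold lor
  positivity

lemma lor_int {l : ℝ} (hl : 0 < l) : Integrable (lor l) := by
  have h1 : Integrable fun x : ℝ => (1 + x ^ 2)⁻¹ := integrable_inv_one_add_sq
  have hpi := Real.pi_pos
  have h2 := h1.comp_mul_left' (R := 2 * Real.pi * l) (by positivity)
  have h3 := h2.const_mul (2 * l)
  refine h3.congr (ae_of_all _ fun x => ?_)
  show 2 * l * (1 + (2 * Real.pi * l * x) ^ 2)⁻¹ = lor l x
  unfold lor
  rw [div_eq_mul_inv]

/-- the half-line integral -/
lemma exp_cos {a : ℝ} (ha : 0 < a) (b : ℝ) :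
    IntegrableOn (fun x : ℝ => Real.exp (-(a * x)) * Real.cos (b * x)) (Ioi 0) ∧
    ∫ x in Ioi (0 : ℝ), Real.exp (-(a * x)) * Real.cos (b * x) = a / (a ^ 2 + b ^ 2) := by
  have hab : 0 < a ^ 2 + b ^ 2 := by positivity
  have i1 : IntegrableOn (fun x : ℝ => Real.exp (-(a * x))) (Ioi 0) := by
    have := exp_neg_integrableOn_Ioi 0 ha
    refine this.congr_fun (fun x _ => ?_) measurableSet_Ioi
    simp only [neg_mul]
  have i2 : IntegrableOn (fun x : ℝ => Real.exp (-(a * x)) * Real.cos (b * x)) (Ioi 0) := by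
    refine Integrable.mul_bdd (c := 1) i1 (by fun_prop) (ae_of_all _ fun x => ?_)
    rw [Real.norm_eq_abs]
    exact Real.abs_cos_le_one _
  refine ⟨i2, ?_⟩
  have hd : ∀ x ∈ Ici (0 : ℝ), HasDerivAt (fun x : ℝ =>
      Real.exp (-(a * x)) * (b * Real.sin (b * x) - a * Real.cos (b * x)) / (a ^ 2 + b ^ 2))
      (Real.exp (-(a * x)) * Real.cos (b * x)) x := by
    intro x _
    have h1 : HasDerivAt (fun x : ℝ => -(a * x)) (-a) x := by
      have h0 := (hasDerivAt_id x).const_mul (-a)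
      refine (h0.congr_deriv (by ring)).congr_of_eventuallyEq (Eventually.of_forall fun y => ?_)
      show -(a * y) = -a * y
      ring
    have h2 := h1.exp
    have h3 : HasDerivAt (fun x : ℝ => b * x) b x := by
      simpa using (hasDerivAt_id x).const_mul b
    have h4 := h3.sin.const_mul b
    have h5 := h3.cos.const_mul a
    have h6 := (h2.mul (h4.sub h5)).div_const (a ^ 2 + b ^ 2)
    refine h6.congr_deriv ?_
    simp only [Pi.sub_apply]
    field_simp
    ring
  have hlim : Tendsto (fun x : ℝ =>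
      Real.exp (-(a * x)) * (b * Real.sin (b * x) - a * Real.cos (b * x)) / (a ^ 2 + b ^ 2)) atTop
      (𝓝 0) := by
    have h1 : Tendsto (fun x : ℝ => Real.exp (-(a * x))) atTop (𝓝 0) := by
      refine Real.tendsto_exp_neg_atTop_nhds_zero.comp ?_
      exact tendsto_id.const_mul_atTop ha
    have h2 : Tendsto (fun x : ℝ => Real.exp (-(a * x)) * ((|b| + a) / (a ^ 2 + b ^ 2))) atTop
        (𝓝 0) := by
      simpa using h1.mul_const ((|b| + a) / (a ^ 2 + b ^ 2))
    refine squeeze_zero_norm (fun x => ?_) h2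
    rw [Real.norm_eq_abs, mul_div_assoc, abs_mul, abs_of_pos (Real.exp_pos _)]
    apply mul_le_mul_of_nonneg_left _ (Real.exp_pos _).le
    rw [abs_div, abs_of_pos hab]
    apply div_le_div_of_nonneg_right _ hab.le
    have e1 := abs_sub (b * Real.sin (b * x)) (a * Real.cos (b * x))
    have e2 : |b * Real.sin (b * x)| ≤ |b| := by
      rw [abs_mul]
      exact mul_le_of_le_one_right (abs_nonneg _) (Real.abs_sin_le_one _)
    have e3 : |a * Real.cos (b * x)| ≤ a := by
      rw [abs_mul, abs_of_pos ha]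
      exact mul_le_of_le_one_right ha.le (Real.abs_cos_le_one _)
    linarith
  have h := integral_Ioi_of_hasDerivAt_of_tendsto' hd i2 hlim
  rw [h]
  simp
  field_simp

lemma ph_qd {l : ℝ} (hl : 0 < l) (x : ℝ) : |ph l x| ≤ (1 + 2 * l ^ 2) / (1 + x ^ 2) := by
  rw [abs_of_pos (ph_pos l x)]
  unfold ph
  have h1 : 1 + x ^ 2 / (2 * l ^ 2) ≤ Real.exp (|x| / l) := by
    have h2 := Real.quadratic_le_exp_of_nonneg (show 0 ≤ |x| / l by positivity)
    have h3 : (|x| / l) ^ 2 / 2 = x ^ 2 / (2 * l ^ 2) := by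
      rw [div_pow, sq_abs]
      field_simp
    have h4 : 0 ≤ |x| / l := by positivity
    linarith
  have e : -|x| / l = -(|x| / l) := by ring
  rw [e, Real.exp_neg, inv_eq_one_div, div_le_div_iff₀ (Real.exp_pos _) (by positivity), one_mul]
  have h5 : 1 + x ^ 2 ≤ (1 + 2 * l ^ 2) * (1 + x ^ 2 / (2 * l ^ 2)) := by
    have e2 : (1 + 2 * l ^ 2) * (1 + x ^ 2 / (2 * l ^ 2)) =
        1 + x ^ 2 + (2 * l ^ 2 + x ^ 2 / (2 * l ^ 2)) := by
      field_simp
      ring
    rw [e2]
    have : 0 ≤ 2 * l ^ 2 + x ^ 2 / (2 * l ^ 2) := by positivity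
    linarith
  refine h5.trans ?_
  gcongr

lemma ph_QD {l : ℝ} (hl : 0 < l) : QD (ph l) := ⟨1 + 2 * l ^ 2, ph_qd hl⟩

lemma ph_int {l : ℝ} (hl : 0 < l) : Integrable (ph l) := by
  refine (int_inv.const_mul (1 + 2 * l ^ 2)).mono' (ph_cont l).aestronglyMeasurable
    (ae_of_all _ fun x => ?_)
  rw [Real.norm_eq_abs, mul_one_div]
  exact ph_qd hl x

lemma ph_fl {l : ℝ} (hl : 0 < l) (α : ℝ) : fl (ph l) α = lor l α := by
  unfold fl
  have h1 : ∫ x : ℝ, ph l x * Real.cos (2 * Real.pi * x * α) =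
      ∫ x : ℝ, (fun x : ℝ => Real.exp (-(1 / l * x)) * Real.cos (2 * Real.pi * α * x)) |x| := by
    refine integral_congr_ae (ae_of_all _ fun x => ?_)
    show ph l x * Real.cos (2 * Real.pi * x * α) =
      Real.exp (-(1 / l * |x|)) * Real.cos (2 * Real.pi * α * |x|)
    unfold ph
    have e1 : -|x| / l = -(1 / l * |x|) := by ring
    have e2 : Real.cos (2 * Real.pi * α * |x|) = Real.cos (2 * Real.pi * x * α) := by
      rcases abs_choice x with h | h
      · rw [h]
        congr 1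
        ring
      · rw [h, ← Real.cos_neg]
        congr 1
        ring
    rw [e1, e2]
  rw [h1, integral_comp_abs (f := fun x : ℝ => Real.exp (-(1 / l * x)) *
    Real.cos (2 * Real.pi * α * x)), (exp_cos (by positivity) _).2]
  unfold lor
  have hpi := Real.pi_pos
  field_simp

lemma lor_fl {l : ℝ} (hl : 0 < l) (x : ℝ) : fl (lor l) x = ph l x := by
  have e0 : fl (ph l) = lor l := funext fun α => ph_fl hl α
  have hi : Integrable (fun α : ℝ => (ph l α : ℂ)) := (ph_int hl).ofReal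
  have e1 : 𝓕 (fun α : ℝ => (ph l α : ℂ)) = fun x => ((lor l x : ℝ) : ℂ) := by
    funext x
    rw [four_eq (ph_int hl) (ph_even l) x, e0]
  have hi2 : Integrable (𝓕 (fun α : ℝ => (ph l α : ℂ))) := by
    rw [e1]; exact (lor_int hl).ofReal
  have hc : Continuous (fun α : ℝ => (ph l α : ℂ)) := Complex.continuous_ofReal.comp (ph_cont l)
  have h1 := congrFun (hc.fourierInv_fourier_eq hi hi2) (-x)
  rw [Real.fourierInv_eq_fourier_neg, neg_neg, e1, four_eq (lor_int hl) (lor_even l)] at h1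
  rw [ph_even] at h1
  exact_mod_cast h1

/-- the pairing with the form factor -/
lemma pair_lim {l : ℝ} (hl : 0 < l) :
    Tendsto (fun T => (∫ α, lor l α * Fr T α) - ∫ x, ph l x ∂(Mp T)) atTop (𝓝 0) := by
  have h1 := ww_remove (ph_cont l) (ph_QD hl)
  refine h1.congr fun T => ?_
  rw [Fr_pair (lor_int hl)]
  simp_rw [lor_fl hl]

end Run7.h719.SM
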