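import Pool.Agent.Run7.h719.SM.Tail
import Pool.Agent.Run7.h719.SM.Tanh
import Pool.Agent.Run7.h719.SM.Cost

/-!
# The second moment of the normalised gaps
-/

open MeasureTheory Set Filter Topology

namespace Run7.h719.SM

open SG (ord NZ)
open Pool.Agent.Y747 (dl)
open Pool.Agent.Y749.Rig (nT Fr nT_pos)

/-- the majorant of the square with the gap functions of the scales `3/4`, `5`, `10 ^ j` -/
noncomputable def maj (J : ℕ) (d : ℝ) : ℝ :=
  131 / 250 * d + (789 / 250 * GG (3 / 4) d + 681 / 25 * GG 5 d +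
    ∑ j ∈ Finset.Icc 2 J, 66 / 5 * 10 ^ j * GG (10 ^ j) d)

lemma sq_le_maj {J : ℕ} (hJ : 2 ≤ J) {x d : ℝ} (h0 : 0 ≤ x) (hxd : x ≤ d)
    (h1 : x ≤ 10 ^ (J + 1)) : x ^ 2 ≤ maj J d := by
  have hd : 0 ≤ d := h0.trans hxd
  have hG : ∀ l : ℝ, 0 < l → QQ l x ≤ GG l d := fun l hl =>
    (QQ_mono hl h0 hxd).trans (QQ_le hl hd)
  have hpos : ∀ j ∈ Finset.Icc 2 J, 0 ≤ 66 / 5 * (10 : ℝ) ^ j * GG (10 ^ j) d := fun j _ =>
    mul_nonneg (by positivity) (GG_nonneg (by positivity) hd)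
  have g1 := hG (3 / 4) (by norm_num)
  have g2 := hG 5 (by norm_num)
  have n1 := QQ_nonneg (l := 3 / 4) h0
  have n2 := QQ_nonneg (l := 5) h0
  unfold maj
  rcases le_total x 100 with h | h
  · have h2 := sq_small h0 h
    have h3 : 1320 * QQ 100 x ≤ ∑ j ∈ Finset.Icc 2 J, 66 / 5 * 10 ^ j * GG (10 ^ j) d := by
      have a1 := Finset.single_le_sum (f := fun j : ℕ => 66 / 5 * (10 : ℝ) ^ j * GG (10 ^ j) d) hpos
        (Finset.mem_Icc.2 ⟨le_rfl, hJ⟩)
      refine le_trans ?_ a1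
      have a2 := hG 100 (by norm_num)
      norm_num
      linarith
    linarith
  · obtain ⟨j, hj1, hj2⟩ := exists_nat_pow_near (show (1 : ℝ) ≤ x by linarith)
      (show (1 : ℝ) < 10 by norm_num)
    have hjJ : j ≤ J ∨ j = J + 1 := by
      rcases Nat.lt_or_ge J j with h3 | h3
      · right
        by_contra hne
        have h4 : J + 2 ≤ j := by omega
        have h5 : (10 : ℝ) ^ (J + 2) ≤ 10 ^ j := pow_le_pow_right₀ (by norm_num) h4
        have h6 : (10 : ℝ) ^ (J + 1) < 10 ^ (J + 2) := pow_lt_pow_right₀ (by norm_num) (by omega)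
        linarith
      · left; exact h3
    have hj2' : 2 ≤ j := by
      by_contra hcon
      push Not at hcon
      have : (10 : ℝ) ^ (j + 1) ≤ 10 ^ 2 := pow_le_pow_right₀ (by norm_num) (by omega)
      norm_num at this
      linarith
    obtain ⟨i, hi1, hi2, hi3, hi4⟩ : ∃ i : ℕ, 2 ≤ i ∧ i ≤ J ∧ (10 : ℝ) ^ i ≤ x ∧
        x ≤ 10 ^ (i + 1) := by
      rcases hjJ with h3 | h3
      · exact ⟨j, hj2', h3, hj1, hj2.le⟩
      · refine ⟨J, hJ, le_rfl, ?_, h1⟩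
        refine le_trans ?_ hj1
        rw [h3]
        exact pow_le_pow_right₀ (by norm_num) (by omega)
    have h3 := sq_large hi3 hi4
    have h4 : 66 / 5 * 10 ^ i * QQ (10 ^ i) x ≤
        ∑ j ∈ Finset.Icc 2 J, 66 / 5 * 10 ^ j * GG (10 ^ j) d := by
      have a1 := Finset.single_le_sum (f := fun j : ℕ => 66 / 5 * (10 : ℝ) ^ j * GG (10 ^ j) d) hpos
        (Finset.mem_Icc.2 ⟨hi1, hi2⟩)
      refine le_trans ?_ a1
      exact mul_le_mul_of_nonneg_left (hG _ (by positivity)) (by positivity)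
    linarith

lemma maj_nonneg {J : ℕ} {d : ℝ} (hd : 0 ≤ d) : 0 ≤ maj J d := by
  have hpos : 0 ≤ ∑ j ∈ Finset.Icc 2 J, 66 / 5 * (10 : ℝ) ^ j * GG (10 ^ j) d :=
    Finset.sum_nonneg fun j _ =>
      mul_nonneg (by positivity) (GG_nonneg (by positivity) hd)
  have g1 := GG_nonneg (l := 3 / 4) (by norm_num) hd
  have g2 := GG_nonneg (l := 5) (by norm_num) hd
  unfold maj
  linarith

/-- the mean of the majorant -/
theorem maj_sum (RH : RiemannHypothesis)
    (hB : ∀ ε : ℝ, 0 < ε → ∀ᶠ T in atTop, ∀ α ∈ Icc (1 : ℝ) (3 / 2), 3 / 2 - α - ε ≤ Fr T α)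
    {J : ℕ} (hJ : 2 ≤ J) {ε : ℝ} (hε : 0 < ε) :
    ∀ᶠ T in atTop, ∑ n ∈ Finset.Icc 1 (NZ T - 1), maj J (dT T n) ≤ (1.6146 + ε) * nT T := by
  obtain ⟨S, hS⟩ : ∃ S : ℝ, S = 789 / 250 + 681 / 25 + ∑ j ∈ Finset.Icc 2 J, 66 / 5 * (10 : ℝ) ^ j :=
    ⟨_, rfl⟩
  have hSp : 0 < S := by
    rw [hS]
    have : 0 ≤ ∑ j ∈ Finset.Icc 2 J, 66 / 5 * (10 : ℝ) ^ j :=
      Finset.sum_nonneg fun j _ => by positivity
    linarith
  obtain ⟨e, he⟩ : ∃ e : ℝ, e = ε / S := ⟨_, rfl⟩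
  have he0 : 0 < e := by rw [he]; positivity
  have hall : ∀ᶠ T in atTop, ∀ j ∈ Finset.Icc 2 J,
      ∑ n ∈ Finset.Icc 1 (NZ T - 1), GG (10 ^ j) (dT T n) ≤ (ee (10 ^ j) + e) * nT T := by
    rw [Finset.eventually_all]
    intro j _
    exact gap_sum RH hB (by positivity) he0
  filter_upwards [hall, gap_sum RH hB (l := 3 / 4) (by norm_num) he0,
    gap_sum RH hB (l := 5) (by norm_num) he0, eventually_ge_atTop 10,
    (SG.ord_tendsto.eventually_ge_atTop 0).exists.elim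
      fun _ _ => eventually_ge_atTop (max 1 (ord 1))] with T h1 h2 h3 h4 h5
  have hn := nT_pos h4
  have hpi := Real.pi_pos
  have hL : 0 < Real.log T := Real.log_pos (by linarith)
  have hN1 : 1 ≤ NZ T := (SG.ord_le_iff le_rfl T).1 ((le_max_right _ _).trans h5)
  obtain ⟨N, hN⟩ : ∃ N : ℕ, NZ T = N + 1 := ⟨NZ T - 1, by omega⟩
  have e2 : ∑ n ∈ Finset.Icc 1 (NZ T - 1), dT T n ≤ nT T := by
    have htel : ∀ M : ℕ, ∑ n ∈ Finset.Icc 1 M, dT T n =
        (ord (M + 1) - ord 1) * Real.log T / (2 * Real.pi) := by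
      intro M
      induction M with
      | zero => simp
      | succ M ih =>
        rw [Finset.sum_Icc_succ_top (by omega), ih]
        unfold dT
        ring
    rw [htel]
    unfold Pool.Agent.Y749.Rig.nT
    have h7 : ord (NZ T - 1 + 1) ≤ T := (SG.ord_le_iff (by omega) T).2 (by omega)
    have h8 := SG.ord_pos (n := 1) le_rfl
    gcongr
    linarith
  have e3 : ∑ n ∈ Finset.Icc 1 (NZ T - 1), maj J (dT T n) =
      131 / 250 * ∑ n ∈ Finset.Icc 1 (NZ T - 1), dT T n +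
        (789 / 250 * ∑ n ∈ Finset.Icc 1 (NZ T - 1), GG (3 / 4) (dT T n) +
        681 / 25 * ∑ n ∈ Finset.Icc 1 (NZ T - 1), GG 5 (dT T n) +
        ∑ j ∈ Finset.Icc 2 J, 66 / 5 * 10 ^ j *
          ∑ n ∈ Finset.Icc 1 (NZ T - 1), GG (10 ^ j) (dT T n)) := by
    unfold maj
    rw [Finset.sum_add_distrib, Finset.sum_add_distrib, Finset.sum_add_distrib, Finset.sum_comm]
    simp only [← Finset.mul_sum]
  rw [e3]
  have e4 : ∑ j ∈ Finset.Icc 2 J, 66 / 5 * 10 ^ j *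
          ∑ n ∈ Finset.Icc 1 (NZ T - 1), GG (10 ^ j) (dT T n) ≤
      ∑ j ∈ Finset.Icc 2 J, 66 / 5 * 10 ^ j * ((ee (10 ^ j) + e) * nT T) :=
    Finset.sum_le_sum fun j hj => mul_le_mul_of_nonneg_left (h1 j hj) (by positivity)
  have e5 : ∑ j ∈ Finset.Icc 2 J, 66 / 5 * 10 ^ j * ((ee (10 ^ j) + e) * nT T) =
      (∑ j ∈ Finset.Icc 2 J, 66 / 5 * 10 ^ j * ee (10 ^ j)) * nT T +
        (∑ j ∈ Finset.Icc 2 J, 66 / 5 * (10 : ℝ) ^ j) * (e * nT T) := by
    rw [Finset.sum_mul, Finset.sum_mul, ← Finset.sum_add_distrib]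
    exact Finset.sum_congr rfl fun j _ => by ring
  have e6 := mul_le_mul_of_nonneg_right (cost_tail J (by omega)) hn.le
  have e7 := mul_le_mul_of_nonneg_right ee_34 hn.le
  have e8 := mul_le_mul_of_nonneg_right ee_5 hn.le
  have e9 : S * (e * nT T) = ε * nT T := by
    rw [he]
    field_simp
  rw [hS] at e9
  have h10 : (0 : ℝ) < nT T := hn
  nlinarith

theorem main (RH : RiemannHypothesis)
    (hB : ∀ ε : ℝ, 0 < ε → ∀ᶠ T in atTop, ∀ α ∈ Icc (1 : ℝ) (3 / 2), 3 / 2 - α - ε ≤ Fr T α) :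
    ∀ᶠ N : ℕ in atTop, ∑ n ∈ Finset.Icc 1 N, dl n ^ 2 ≤ 1.615 * N := by
  classical
  have hpi := Real.pi_gt_three
  obtain ⟨η, hη⟩ : ∃ η : ℝ, η = 1 / 20000 := ⟨_, rfl⟩
  have hη0 : 0 < η := by rw [hη]; norm_num
  obtain ⟨D, hD1, hD⟩ := tail RH hη0
  obtain ⟨J, hJ⟩ : ∃ J : ℕ, 2 ≤ J ∧ D ≤ 10 ^ (J + 1) := by
    obtain ⟨i, hi⟩ := pow_unbounded_of_one_lt D (show (1 : ℝ) < 10 by norm_num)
    refine ⟨i + 2, by omega, hi.le.trans (pow_le_pow_right₀ (by norm_num) (by omega))⟩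
  obtain ⟨n0, hn0⟩ := Pool.Agent.Y747.dl_nonneg
  obtain ⟨K, hK⟩ : ∃ K : ℝ, K = ∑ n ∈ Finset.range n0, dl n ^ 2 := ⟨_, rfl⟩
  have hlim : Tendsto (fun N : ℕ => ord (N + 1)) atTop atTop :=
    SG.ord_tendsto.comp (tendsto_add_atTop_nat 1)
  filter_upwards [W249.TCF.T_le η hη0 (by rw [hη]; norm_num),
    hlim.eventually (maj_sum RH hB hJ.1 hη0), hlim.eventually_ge_atTop 10,
    eventually_ge_atTop 1, (tendsto_natCast_atTop_atTop (R := ℝ)).eventually_ge_atTop (K / η)]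
    with N h1 h2 h3 h4 h5
  obtain ⟨T, hT⟩ : ∃ T : ℝ, T = ord (N + 1) := ⟨_, rfl⟩
  rw [← hT] at h1 h2 h3
  have hlog : 0 < Real.log T := Real.log_pos (by linarith)
  have hNZ : N + 1 ≤ NZ T := (SG.ord_le_iff (by omega) T).1 (by rw [hT])
  have hsub : Finset.Icc 1 N ⊆ Finset.Icc 1 (NZ T - 1) := by
    apply Finset.Icc_subset_Icc_right
    omega
  have hdT : ∀ n ∈ Finset.Icc 1 (NZ T - 1), 0 ≤ dT T n := by
    intro n hn
    rw [Finset.mem_Icc] at hn
    have hd : 0 ≤ ord (n + 1) - ord n := sub_nonneg.2 (SG.ord_mono hn.1 (by omega))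
    unfold dT
    positivity
  have hterm : ∀ n ∈ Finset.Icc 1 N, dl n ≤ dT T n := by
    intro n hn
    rw [Finset.mem_Icc] at hn
    have hp := SG.ord_pos hn.1
    have hd : 0 ≤ ord (n + 1) - ord n := sub_nonneg.2 (SG.ord_mono hn.1 (by omega))
    have hle : ord n ≤ T := by rw [hT]; exact SG.ord_mono hn.1 (by omega)
    have hl : Real.log (ord n / (2 * Real.pi)) ≤ Real.log T := by
      apply Real.log_le_log (by positivity)
      refine (div_le_self hp.le (by linarith)).trans hle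
    unfold Pool.Agent.Y747.dl dT
    calc (ord (n + 1) - ord n) / (2 * Real.pi) * Real.log (ord n / (2 * Real.pi)) ≤
        (ord (n + 1) - ord n) / (2 * Real.pi) * Real.log T := by gcongr
      _ = _ := by ring
  -- the three parts
  have hpart : ∀ n ∈ Finset.Icc 1 N, dl n ^ 2 ≤ maj J (dT T n) +
      (if D < dl n then dl n ^ 2 else 0) + (if n < n0 then dl n ^ 2 else 0) := by
    intro n hn
    have hm := maj_nonneg (J := J) (hdT n (hsub hn))
    have hsq := sq_nonneg (dl n)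
    by_cases c1 : n < n0
    · rw [if_pos c1]
      have : 0 ≤ (if D < dl n then dl n ^ 2 else 0) := by split_ifs <;> positivity
      linarith
    · rw [if_neg c1]
      by_cases c2 : D < dl n
      · rw [if_pos c2]
        linarith
      · rw [if_neg c2]
        push Not at c1 c2
        have := sq_le_maj hJ.1 (hn0 n c1) (hterm n hn) (c2.trans hJ.2)
        linarith
  have hNr : (0 : ℝ) ≤ N := Nat.cast_nonneg N
  refine (Finset.sum_le_sum hpart).trans ?_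
  rw [Finset.sum_add_distrib, Finset.sum_add_distrib, ← Finset.sum_filter, ← Finset.sum_filter]
  have p1 : ∑ n ∈ Finset.Icc 1 N, maj J (dT T n) ≤ (1.6146 + η) * nT T :=
    (Finset.sum_le_sum_of_subset_of_nonneg hsub fun n hn _ => maj_nonneg (hdT n hn)).trans h2
  have p2 := hD N h4
  have p3 : ∑ n ∈ (Finset.Icc 1 N).filter (fun n => n < n0), dl n ^ 2 ≤ K := by
    rw [hK]
    apply Finset.sum_le_sum_of_subset_of_nonneg
    · intro n hn
      rw [Finset.mem_filter] at hn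
      exact Finset.mem_range.2 hn.2
    · intro n _ _
      positivity
  have p4 : K ≤ η * N := by
    rw [div_le_iff₀ hη0] at h5
    linarith
  have p5 : nT T ≤ (1 + η) * N := by
    refine le_trans (le_of_eq ?_) h1
    unfold Pool.Agent.Y749.Rig.nT
    rfl
  have p6 : (1.6146 + η) * nT T ≤ (1.6146 + η) * ((1 + η) * N) :=
    mul_le_mul_of_nonneg_left p5 (by linarith)
  rw [hη] at p1 p2 p4 p6
  nlinarith

end Run7.h719.SM
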