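import Pool.Agent.Run7.h719.SM.Lor

/-!
# The pair sum of the exponential kernel
-/

open MeasureTheory Set Filter Topology

namespace Run7.h719.SM

open Run7.h719.PC Run7.h719.NV
open Pool.Agent.Y749.Rig (fl Fr Fr_cont Fr_even Fr_nonneg Mp)

/-- the upper bound of the pair sum -/
noncomputable def PP (l : ℝ) : ℝ :=
  2 * l + (Real.log (1 + 4 * Real.pi ^ 2 * l ^ 2) + 3641 / 1000) / (2 * Real.pi ^ 2 * l)

lemma lor_zero (l : ℝ) : lor l 0 = 2 * l := by unfold lor; simp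

lemma lor_le {l : ℝ} (hl : 0 < l) {α : ℝ} (hα : 0 < α) :
    lor l α ≤ 1 / (2 * Real.pi ^ 2 * l) * (1 / α ^ 2) := by
  have hpi := Real.pi_pos
  unfold lor
  rw [← mul_div_assoc, mul_one, div_le_div_iff₀ (lor_den l α) (by positivity)]
  have e : 1 / (2 * Real.pi ^ 2 * l) * (1 + (2 * Real.pi * l * α) ^ 2) =
      1 / (2 * Real.pi ^ 2 * l) + 2 * l * α ^ 2 := by
    field_simp
  rw [e]
  have : 0 < 1 / (2 * Real.pi ^ 2 * l) := by positivity
  linarith

lemma lor_deriv {l : ℝ} (x : ℝ) : HasDerivAt (lor l)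
    (-(2 * l * (8 * Real.pi ^ 2 * l ^ 2 * x)) / (1 + (2 * Real.pi * l * x) ^ 2) ^ 2) x := by
  have h1 : HasDerivAt (fun x : ℝ => 1 + (2 * Real.pi * l * x) ^ 2)
      (8 * Real.pi ^ 2 * l ^ 2 * x) x := by
    have h2 : HasDerivAt (fun x : ℝ => 2 * Real.pi * l * x) (2 * Real.pi * l) x := by
      simpa using (hasDerivAt_id x).const_mul (2 * Real.pi * l)
    have h3 := (h2.pow 2).const_add 1
    refine h3.congr_deriv ?_
    push_cast
    ring
  have h2 := (hasDerivAt_const x (2 * l)).div h1 (lor_den l x).ne'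
  refine h2.congr_deriv ?_
  congr 1
  ring

lemma lor_first {l : ℝ} (hl : 0 < l) (h : ℝ) : ∫ α in (0 : ℝ)..h, α * lor l α =
    1 / (4 * Real.pi ^ 2 * l) * Real.log (1 + 4 * Real.pi ^ 2 * l ^ 2 * h ^ 2) := by
  have hpi := Real.pi_pos
  have hd : ∀ x ∈ uIcc 0 h, HasDerivAt (fun x : ℝ =>
      1 / (4 * Real.pi ^ 2 * l) * Real.log (1 + 4 * Real.pi ^ 2 * l ^ 2 * x ^ 2)) (x * lor l x) x := by
    intro x _
    have h0 : 0 < 1 + 4 * Real.pi ^ 2 * l ^ 2 * x ^ 2 := by positivity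
    have h1 : HasDerivAt (fun x : ℝ => 1 + 4 * Real.pi ^ 2 * l ^ 2 * x ^ 2)
        (8 * Real.pi ^ 2 * l ^ 2 * x) x := by
      have h3 := ((hasDerivAt_pow 2 x).const_mul (4 * Real.pi ^ 2 * l ^ 2)).const_add 1
      refine h3.congr_deriv ?_
      push_cast
      ring
    have h2 := (h1.log h0.ne').const_mul (1 / (4 * Real.pi ^ 2 * l))
    refine h2.congr_deriv ?_
    unfold lor
    have e : (2 * Real.pi * l * x) ^ 2 = 4 * Real.pi ^ 2 * l ^ 2 * x ^ 2 := by ring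
    rw [e]
    field_simp
    ring
  rw [intervalIntegral.integral_eq_sub_of_hasDerivAt hd]
  · simp
  · have := lor_cont l
    exact (continuous_id.mul this).intervalIntegrable _ _

lemma lor_Fr_int {l : ℝ} (hl : 0 < l) (T : ℝ) : Integrable fun α => lor l α * Fr T α := by
  obtain ⟨C, hC⟩ := Fr_bdd T
  exact (lor_int hl).mul_bdd (c := C) (Fr_cont T).aestronglyMeasurable (ae_of_all _ fun α => hC α)

theorem pair_up (RH : RiemannHypothesis)
    (hB : ∀ ε : ℝ, 0 < ε → ∀ᶠ T in atTop, ∀ α ∈ Icc (1 : ℝ) (3 / 2), 3 / 2 - α - ε ≤ Fr T α)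
    {l : ℝ} (hl : 0 < l) : ∀ᶠ T in atTop, ∫ x, ph l x ∂(Mp T) ≤ PP l := by
  obtain ⟨h, hh⟩ : ∃ h : ℝ, h = 9999 / 10000 := ⟨_, rfl⟩
  have hpos : 0 < h := by rw [hh]; norm_num
  have hlt : h < 1 := by rw [hh]; norm_num
  have hpi := Real.pi_pos
  obtain ⟨η, hη⟩ : ∃ η : ℝ, η = 1 / (2 * Real.pi ^ 2 * l) * (1 / 10000) := ⟨_, rfl⟩
  have hη0 : 0 < η := by rw [hη]; positivity
  have hc' : ContinuousOn (fun x : ℝ =>
      -(2 * l * (8 * Real.pi ^ 2 * l ^ 2 * x)) / (1 + (2 * Real.pi * l * x) ^ 2) ^ 2) (Icc 0 h) := by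
    apply Continuous.continuousOn
    refine Continuous.div (by fun_prop) (by fun_prop) fun x => ?_
    have := lor_den l x
    positivity
  have t0 := (fam RH).weight0 hpos hlt (w := lor l) (fun x _ => lor_deriv x) hc'
  rw [lor_zero, lor_first hl] at t0
  have t1 := pair_lim hl
  have hlog : Real.log (1 / h) ≤ 11 / 100000 := by
    have := Real.log_le_sub_one_of_pos (show 0 < 1 / h by positivity)
    refine this.trans ?_
    rw [hh]
    norm_num
  have up : ∀ {g : ℝ → ℝ} {c : ℝ}, Tendsto g atTop (𝓝 c) → ∀ᶠ T in atTop, g T ≤ c + η :=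
    fun ht => ht.eventually (ge_mem_nhds (by linarith))
  have lo : ∀ {g : ℝ → ℝ} {c : ℝ}, Tendsto g atTop (𝓝 c) → ∀ᶠ T in atTop, c - η ≤ g T :=
    fun ht => ht.eventually (le_mem_nhds (by linarith))
  filter_upwards [up t0, lo t1, zeta_bounds RH hB hpos hlt, eventually_ge_atTop 10] with
    T a0 a1 a2 hT
  obtain ⟨b1, -, b3⟩ := a2
  have hint := lor_Fr_int hl T
  have e1 := half hint (fun x => by
    show lor l (-x) * Fr T (-x) = _
    rw [lor_even, Fr_even]) h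
  have h1 : ∫ α in Ioi h, lor l α * Fr T α ≤ 1 / (2 * Real.pi ^ 2 * l) *
      ∫ α in Ioi h, 1 / α ^ 2 * Fr T α := by
    rw [← integral_const_mul]
    refine setIntegral_mono_on hint.integrableOn (b1.const_mul _) measurableSet_Ioi fun α hα => ?_
    rw [← mul_assoc]
    exact mul_le_mul_of_nonneg_right (lor_le hl (hpos.trans hα)) (Fr_nonneg hT α)
  have h2 : Real.log (1 + 4 * Real.pi ^ 2 * l ^ 2 * h ^ 2) ≤
      Real.log (1 + 4 * Real.pi ^ 2 * l ^ 2) := by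
    apply Real.log_le_log (by positivity)
    have : 4 * Real.pi ^ 2 * l ^ 2 * h ^ 2 ≤ 4 * Real.pi ^ 2 * l ^ 2 * 1 := by
      gcongr
      rw [hh]
      norm_num
    linarith
  obtain ⟨K, hK⟩ : ∃ K : ℝ, K = 1 / (2 * Real.pi ^ 2 * l) := ⟨_, rfl⟩
  have hK0 : 0 < K := by rw [hK]; positivity
  have e2 : 1 / (4 * Real.pi ^ 2 * l) = 1 / 2 * K := by rw [hK]; field_simp; ring
  have e3 : PP l = 2 * l + K * (Real.log (1 + 4 * Real.pi ^ 2 * l ^ 2) + 3641 / 1000) := by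
    unfold PP
    rw [hK]
    field_simp
  rw [← hK] at h1 hη
  rw [e2] at a0
  have h3 : ∫ α in Ioi h, lor l α * Fr T α ≤ K * (182011 / 100000) :=
    h1.trans (mul_le_mul_of_nonneg_left (by linarith) hK0.le)
  have h4 := mul_le_mul_of_nonneg_left h2 hK0.le
  rw [e3]
  linarith

end Run7.h719.SM
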