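import Pool.Agent.H382L.GapUnif
import Pool.Agent.Y747.Avg

/-!
# The large gaps contribute little to the second moment
-/

open Filter Topology Set

namespace Run7.h719.SM

open SG (ord NZ)
open Pool.Agent.Y747 (dl)

lemma rhs_of (RH : RiemannHypothesis) : SP.RHs := by
  intro s h1 h2 h0
  apply RH s h0
  · rintro ⟨k, hk⟩
    have := congrArg Complex.re hk
    simp at this
    have hk0 : (0 : ℝ) ≤ k := Nat.cast_nonneg k
    linarith
  · intro h; rw [h] at h2; simp at h2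

lemma dl_le_dlt {n : ℕ} (hn : 1 ≤ n) : dl n ≤ LG.dlt n := by
  have hpi := Real.pi_gt_three
  have h1 := SG.ord_pos hn
  have h2 := SG.ord_mono hn (show n ≤ n + 1 by omega)
  have h3 : Real.log (ord n) ≤ Real.log (ord (n + 1)) := Real.log_le_log h1 h2
  have h4 : Real.log (ord n / (2 * Real.pi)) ≤ Real.log (ord n) := by
    apply Real.log_le_log (by positivity)
    exact div_le_self h1.le (by linarith)
  have h5 : (ord (n + 1) - ord n) * Real.log (ord n / (2 * Real.pi)) ≤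
      ord (n + 1) * Real.log (ord (n + 1)) - ord n * Real.log (ord n) := by
    have a1 : (ord (n + 1) - ord n) * Real.log (ord n / (2 * Real.pi)) ≤
        (ord (n + 1) - ord n) * Real.log (ord n) :=
      mul_le_mul_of_nonneg_left h4 (by linarith)
    have a2 : 0 ≤ ord (n + 1) * (Real.log (ord (n + 1)) - Real.log (ord n)) :=
      mul_nonneg (by linarith) (by linarith)
    nlinarith
  unfold Pool.Agent.Y747.dl LG.dlt
  rw [div_mul_eq_mul_div]
  gcongr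

theorem tail (RH : RiemannHypothesis) {η : ℝ} (hη : 0 < η) : ∃ D : ℝ, 1 ≤ D ∧ ∀ N : ℕ, 1 ≤ N →
    ∑ n ∈ (Finset.Icc 1 N).filter (fun n => D < dl n), dl n ^ 2 ≤ η * N := by
  classical
  obtain ⟨c, y0, hc, hy0, hu⟩ := LG.gap_uniform (rhs_of RH)
  -- the choice of the first dyadic scale
  obtain ⟨i0, hi0⟩ : ∃ i0 : ℕ, y0 + 3 / c + 8 / η + 3 ≤ (2 : ℝ) ^ i0 := by
    obtain ⟨i, hi⟩ := pow_unbounded_of_one_lt (y0 + 3 / c + 8 / η + 3) (one_lt_two (α := ℝ))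
    exact ⟨i, hi.le⟩
  have p1 : 0 < 3 / c := by positivity
  have p2 : 0 < 8 / η := by positivity
  refine ⟨2 ^ i0, by linarith, fun N hN => ?_⟩
  have hNr : (0 : ℝ) ≤ N := Nat.cast_nonneg N
  -- the count at one scale
  have hcount : ∀ i : ℕ, i0 ≤ i →
      (((Finset.Icc 1 N).filter (fun n => (2 : ℝ) ^ i ≤ dl n)).card : ℝ) ≤ N * ((2 : ℝ) ^ i)⁻¹ ^ 3 := by
    intro i hi
    have hmon : (2 : ℝ) ^ i0 ≤ 2 ^ i := pow_le_pow_right₀ one_le_two hi
    have hy : y0 ≤ (2 : ℝ) ^ i := by linarith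
    have h1 := hu N hN _ hy
    have hsub : (((Finset.Icc 1 N).filter (fun n => (2 : ℝ) ^ i ≤ dl n) : Finset ℕ) : Set ℕ) ⊆
        {n : ℕ | 1 ≤ n ∧ n ≤ N ∧ (2 : ℝ) ^ i ≤ LG.dlt n} := by
      intro n hn
      rw [Finset.mem_coe, Finset.mem_filter, Finset.mem_Icc] at hn
      exact ⟨hn.1.1, hn.1.2, hn.2.trans (dl_le_dlt hn.1.1)⟩
    have hfin : {n : ℕ | 1 ≤ n ∧ n ≤ N ∧ (2 : ℝ) ^ i ≤ LG.dlt n}.Finite :=
      (Set.finite_Iic N).subset fun n hn => hn.2.1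
    have h2 := Set.ncard_le_ncard hsub hfin
    rw [Set.ncard_coe_finset] at h2
    have h3 : (((Finset.Icc 1 N).filter (fun n => (2 : ℝ) ^ i ≤ dl n)).card : ℝ) ≤
        N * Real.exp (-c * 2 ^ i * Real.log (2 ^ i)) := le_trans (by exact_mod_cast h2) h1
    refine h3.trans (mul_le_mul_of_nonneg_left ?_ hNr)
    have hpos : (0 : ℝ) < 2 ^ i := by positivity
    have h4 : 0 ≤ Real.log (2 ^ i) := Real.log_nonneg (by linarith)
    have h5 : 3 ≤ c * 2 ^ i := by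
      have : 3 / c ≤ 2 ^ i := by linarith
      rw [div_le_iff₀ hc] at this
      linarith
    have h6 : Real.exp (-(3 * Real.log (2 ^ i))) = ((2 : ℝ) ^ i)⁻¹ ^ 3 := by
      rw [Real.exp_neg, mul_comm, Real.exp_mul, Real.exp_log hpos, inv_pow]
      norm_cast
    rw [← h6]
    apply Real.exp_le_exp.2
    nlinarith
  -- the last scale
  obtain ⟨M, hM⟩ : ∃ M : ℕ, ∀ n ∈ Finset.Icc 1 N, dl n < 2 ^ M := by
    obtain ⟨M, hM⟩ := pow_unbounded_of_one_lt (∑ n ∈ Finset.Icc 1 N, |dl n|) (one_lt_two (α := ℝ))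
    refine ⟨M, fun n hn => ?_⟩
    calc dl n ≤ |dl n| := le_abs_self _
      _ ≤ ∑ n ∈ Finset.Icc 1 N, |dl n| :=
        Finset.single_le_sum (f := fun n => |dl n|) (fun i _ => abs_nonneg _) hn
      _ < _ := hM
  -- one term
  have hterm : ∀ n ∈ (Finset.Icc 1 N).filter (fun n => (2 : ℝ) ^ i0 < dl n),
      dl n ^ 2 ≤ ∑ i ∈ Finset.Ico i0 M, if (2 : ℝ) ^ i ≤ dl n then (4 : ℝ) * (2 ^ i) ^ 2 else 0 := by
    intro n hn
    rw [Finset.mem_filter] at hn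
    have h1 : 1 ≤ dl n := le_trans (by linarith) hn.2.le
    obtain ⟨i, hi1, hi2⟩ := exists_nat_pow_near h1 (one_lt_two (α := ℝ))
    have hi3 : i0 ≤ i := by
      by_contra hcon
      push Not at hcon
      have : (2 : ℝ) ^ (i + 1) ≤ 2 ^ i0 := pow_le_pow_right₀ one_le_two hcon
      linarith [hn.2]
    have hi4 : i < M := by
      by_contra hcon
      push Not at hcon
      have : (2 : ℝ) ^ M ≤ 2 ^ i := pow_le_pow_right₀ one_le_two hcon
      linarith [hM n hn.1]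
    have h2 : (if (2 : ℝ) ^ i ≤ dl n then (4 : ℝ) * (2 ^ i) ^ 2 else 0) ≤
        ∑ i ∈ Finset.Ico i0 M, if (2 : ℝ) ^ i ≤ dl n then (4 : ℝ) * (2 ^ i) ^ 2 else 0 := by
      apply Finset.single_le_sum (f := fun i => if (2 : ℝ) ^ i ≤ dl n then (4 : ℝ) * (2 ^ i) ^ 2 else 0)
      · intro j _
        split_ifs <;> positivity
      · exact Finset.mem_Ico.2 ⟨hi3, hi4⟩
    refine le_trans ?_ h2
    rw [if_pos hi1]
    rw [pow_succ] at hi2
    nlinarith
  refine (Finset.sum_le_sum hterm).trans ?_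
  rw [Finset.sum_comm]
  have hs : ∀ i ∈ Finset.Ico i0 M,
      ∑ n ∈ (Finset.Icc 1 N).filter (fun n => (2 : ℝ) ^ i0 < dl n),
        (if (2 : ℝ) ^ i ≤ dl n then (4 : ℝ) * (2 ^ i) ^ 2 else 0) ≤ 4 * N * ((2 : ℝ)⁻¹) ^ i := by
    intro i hi
    rw [Finset.mem_Ico] at hi
    have h1 : ∑ n ∈ (Finset.Icc 1 N).filter (fun n => (2 : ℝ) ^ i0 < dl n),
        (if (2 : ℝ) ^ i ≤ dl n then (4 : ℝ) * (2 ^ i) ^ 2 else 0) ≤
        ∑ n ∈ Finset.Icc 1 N, (if (2 : ℝ) ^ i ≤ dl n then (4 : ℝ) * (2 ^ i) ^ 2 else 0) := by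
      apply Finset.sum_le_sum_of_subset_of_nonneg (Finset.filter_subset _ _)
      intro n _ _
      split_ifs <;> positivity
    refine h1.trans ?_
    rw [← Finset.sum_filter, Finset.sum_const, nsmul_eq_mul]
    have h2 := hcount i hi.1
    have hpos : (0 : ℝ) < 2 ^ i := by positivity
    calc (((Finset.Icc 1 N).filter (fun n => (2 : ℝ) ^ i ≤ dl n)).card : ℝ) * (4 * (2 ^ i) ^ 2) ≤
        N * ((2 : ℝ) ^ i)⁻¹ ^ 3 * (4 * (2 ^ i) ^ 2) := by gcongr
      _ = 4 * N * ((2 : ℝ)⁻¹) ^ i := by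
        rw [inv_pow, inv_pow]
        field_simp
  refine (Finset.sum_le_sum hs).trans ?_
  rw [← Finset.mul_sum]
  have hgeo : ∑ i ∈ Finset.Ico i0 M, ((2 : ℝ)⁻¹) ^ i ≤ 2 * (2⁻¹) ^ i0 := by
    rcases le_total i0 M with h | h
    · have := geom_sum_Ico_le_of_lt_one (x := (2 : ℝ)⁻¹) (m := i0) (n := M) (by norm_num) (by norm_num)
      refine this.trans (le_of_eq ?_)
      norm_num
      ring
    · rw [Finset.Ico_eq_empty_of_le h, Finset.sum_empty]
      positivity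
  have h7 : 4 * (N : ℝ) * ∑ i ∈ Finset.Ico i0 M, ((2 : ℝ)⁻¹) ^ i ≤ 4 * N * (2 * (2⁻¹) ^ i0) := by
    gcongr
  refine h7.trans ?_
  have h8 : (2⁻¹ : ℝ) ^ i0 ≤ η / 8 := by
    rw [inv_pow]
    rw [inv_le_comm₀ (by positivity) (by positivity)]
    rw [inv_div]
    linarith
  nlinarith

end Run7.h719.SM
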